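import Mathlib
import Pool.Agent.H491.Un8

set_option autoImplicit false

/-!
# Fixed combinations of multiple zeta values are transcendental for almost all arguments

Hoffman's conjecture contains that there are no unexpected linear relations between multiple zeta values of the same weight,
nor between those of different weights; in particular every multiple zeta value of positive weight is transcendental. The
theorem concerns the elements `∑_σ c(σ) ζ(a_σ(1), …, a_σ(D))` with fixed rational coefficients `c(σ)`, the sum being over the
`D!` orders of the arguments.

Let `A` be the set of the places of the odd arguments. Let `W` be the space of the `c` that is spanned by the functions which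
do not depend on the place of some even letter, and by the functions which do not depend on the places of two letters. These
are the leading parts (modulo merged terms) of the products `ζ(a_i) P` with `a_i` even and `ζ(a_i) ζ(a_j) P`, where `P` is a
combination of multiple zeta values of the other letters. For example, the symmetric sums (`c = 1`) belong to `W` whenever
`D ≥ 2` or `A = ∅`.

The dimension of `W` is the number of the permutations that fix a letter not in `A` or two letters (Un7.lean); so it is
about `(1 - 1 / e) D!` if `A = ∅`, and about `(1 - 2 / e) D!` if `A` is everything.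

Theorem. Let `c ∈ W`, `c ≠ 0`. Let `L` be a subfield of `ℝ` over which `π` is transcendental (for example the field of the real
algebraic numbers) and `E` a subspace of `ℝ` of dimension at most `r` over `L`. Then in every box
`2 y_i + 2 ≤ a_i ≤ 2 y_i + 2 n + 1` with `n ≥ C(A, c, ε) (r + 1)`, for all `a` with odd entries exactly at the places of `A`,
but the part `ε` of them, `∑_σ c(σ) ζ(a_σ)` is not in `E`. (So the exceptional `a` have upper Banach density zero.)

This remains true if one adds arbitrary functions `g_(ij)(a)` that depend only on `a_i + a_j` and the other entries, for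
example any function of the multiple zeta values with the two arguments `a_i` and `a_j` merged, where `(i, j)` belongs to a
given set `N`; then for the second kind of generators of `W` only pairs of letters not in `N` are allowed. (`C` does not
depend on `E`, `L`, `r`, the place of the box and the functions `g`.)

Proof. Let `R_i` be the operator that moves the letter `i` to the front. Take a maximal set of letters `l'` such that the
product `c_0` of the `1 - R_j`, `j ∈ l'`, applied to `c` is not zero; then `c_0` does not depend on the places of the
other letters, and among these is an even letter or a pair of letters not in `N`. If the set of the exceptional `a` had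
positive density, it would contain a pattern of bounded shape far from the origin: a box, a cube with a side in each
direction `e_i - e_j`, and an arithmetically free direction `2 b e_(i_0)`. The alternating sum over the cube kills all merged
terms (except those for a pair of odd letters, which become an even letter), and real coefficients on the sides of the box
kill `c - c_0`; what remains is `∑_v ζ(2 b + v) w_v ∈ E'` with even `v`, and so all `w_v` vanish because all minors of the
matrix `ζ(2 (i + j)) / π ^ (2 (i + j))` are different from zero. But far from the origin the numbers `w_v` can be chosen close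
to those given by finitely many places, which do not all vanish.
-/

namespace Pool.Agent.Results.MP_c2d7b4_nt.AlmostAllCombinations

/-- the multiple zeta value `ζ(k_1, …, k_D) = ∑_{n_1 > ⋯ > n_D ≥ 1} n_1 ^ (-k_1) ⋯ n_D ^ (-k_D)` -/
noncomputable def zeta {D : ℕ} (k : Fin D → ℕ) : ℝ :=
  ∑' n : {n : Fin D → ℕ // StrictAnti n ∧ ∀ i, 1 ≤ n i}, ∏ i, (((n.1 i : ℕ) : ℝ) ^ k i)⁻¹

/-- the tuples `a` in the box `2 y_i + 2 ≤ a_i ≤ 2 y_i + 2 n + 1` with odd entries exactly at the places of `A` -/
def tuples {D : ℕ} (A : Finset (Fin D)) (y : Fin D → ℕ) (n : ℕ) : Finset (Fin D → ℕ) :=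
  (Fintype.piFinset fun i => Finset.Icc (2 * y i + 2) (2 * y i + 2 * n + 1)).filter fun a => ∀ i, Odd (a i) ↔ i ∈ A

/-- `c` does not depend on the place of the letter `i`: it has the same value at any two orders `σ`, `τ` in which the other
letters come in the same order (the letter `a` has the place `σ⁻¹ a` in the order `σ`) -/
def IndependentOf {D : ℕ} (i : Fin D) (c : Equiv.Perm (Fin D) → ℚ) : Prop :=
  ∀ σ τ : Equiv.Perm (Fin D), (∀ a b, a ≠ i → b ≠ i → (σ.symm a < σ.symm b ↔ τ.symm a < τ.symm b)) → c σ = c τ

/-- the space spanned by the functions that do not depend on the place of some letter `i ∉ A`, and by those that do not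
depend on the places of two letters `i ≠ j` with `(i, j)` and `(j, i)` not in `N` -/
def combinations {D : ℕ} (A : Finset (Fin D)) (N : Finset (Fin D × Fin D)) : Submodule ℚ (Equiv.Perm (Fin D) → ℚ) :=
  Submodule.span ℚ {c | (∃ i, i ∉ A ∧ IndependentOf i c) ∨
    ∃ i j, i ≠ j ∧ (i, j) ∉ N ∧ (j, i) ∉ N ∧ IndependentOf i c ∧ IndependentOf j c}

/-- `g` depends only on `a_i + a_j` and the other entries -/
def Merged {D : ℕ} (i j : Fin D) (g : (Fin D → ℕ) → ℝ) : Prop :=
  ∀ a a' : Fin D → ℕ, (∀ k, k ≠ i → k ≠ j → a k = a' k) → a i + a j = a' i + a' j → g a = g a'

open Classical in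
theorem result (D : ℕ) (A : Finset (Fin D)) (N : Finset (Fin D × Fin D)) (hN : ∀ p ∈ N, p.1 ≠ p.2)
    (c : Equiv.Perm (Fin D) → ℚ) (hc : c ∈ combinations A N) (hc0 : c ≠ 0) (ε : ℝ) (hε : 0 < ε) :
    ∃ C : ℕ, ∀ n r : ℕ, C * (r + 1) ≤ n → ∀ (L : Subfield ℝ), Transcendental L Real.pi → ∀ (E : Submodule L ℝ),
      Module.rank L E ≤ (r : Cardinal) →
      ∀ g : Fin D × Fin D → (Fin D → ℕ) → ℝ, (∀ p ∈ N, Merged p.1 p.2 (g p)) → ∀ y : Fin D → ℕ,
      (((tuples A y n).filter fun a =>
        (∑ σ : Equiv.Perm (Fin D), ((c σ : ℚ) : ℝ) * zeta (a ∘ σ)) + ∑ p ∈ N, g p a ∈ E).card : ℝ) ≤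
        ε * ((tuples A y n).card : ℝ) :=
  Pool.Agent.H491.Der.almost_all_local A N hN c hc hc0 ε hε

end Pool.Agent.Results.MP_c2d7b4_nt.AlmostAllCombinations
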