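import Mathlib
import Pool.Agent.H491.Rep2
import Pool.Agent.H491.Conv

set_option autoImplicit false

/-!
# The Hoffman elements `ζ(3)`, `ζ(3, 3)`, `ζ(3, 3, 3)`, …

Let `x_n = ζ(m, …, m)` (`n` entries), `m ≥ 2`; for `m = 3` these are Hoffman elements. Let `E` be a space of real numbers
of dimension at most `e` over the field of all real algebraic numbers, and `s` the number of the `n ≤ 2 N` with `x_n ∉ E`.
Then `(e + s) (e + s + 1) ≥ 2 (N + 1)`.

In particular, `x_0, x_1, …, x_{2 N}` span a space of dimension at least `√(2 N + 9 / 4) - 1 / 2` over the real algebraic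
numbers, so the Hoffman elements `ζ({3}^n)` span a space of infinite dimension, even over the algebraic numbers; and at
least `√(2 N + 9 / 4) - 3 / 2` of the numbers `ζ({3}^n)`, `1 ≤ n ≤ 2 N`, are transcendental. Hoffman's conjecture says
that all of them (and all other Hoffman elements) are linearly independent over the rational numbers.

Proof. Let `F(t) = ∑ x_n t ^ n = ∏ (1 + t / k ^ m)`. Then `F(t) F(-t) = ∏ (1 - t ^ 2 / k ^ (2 m))` has the coefficients
`± ζ({2 m}^n)`, nonzero rational multiples of `π ^ (2 m n)`, which are linearly independent over the algebraic numbers. If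
`x_0, …, x_{2 N}` are in a space `V` of dimension `d`, the coefficients with `n ≤ N` are in the space spanned by the
products of two elements of `V`, of dimension at most `d (d + 1) / 2`.
-/

namespace Pool.Agent.Results.MP_c2d7b4_nt.PowersOfALetter

/-- the field of the real algebraic numbers -/
noncomputable abbrev RealAlg : IntermediateField ℚ ℝ := algebraicClosure ℚ ℝ

/-- the multiple zeta value `ζ(n_1, …, n_r) = ∑_{k_1 > ⋯ > k_r ≥ 1} k_1 ^ (-n_1) ⋯ k_r ^ (-n_r)` -/
noncomputable def zeta (s : List ℕ) : ℝ :=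
  ∑' k : {k : Fin s.length → ℕ // StrictAnti k ∧ ∀ i, 1 ≤ k i}, ∏ i, (((k.1 i : ℕ) : ℝ) ^ s.get i)⁻¹

open Pool.Agent.H447R2.MZ Pool.Agent.H491

theorem result (m : ℕ) (hm : 2 ≤ m) (N e : ℕ) (E : Submodule RealAlg ℝ) (hE : Module.rank RealAlg E ≤ e) (s : ℕ)
    (hs : s = {n : ℕ | n ≤ 2 * N ∧ zeta (List.replicate n m) ∉ E}.ncard) :
    2 * (N + 1) ≤ (e + s) * (e + s + 1) := by
  classical
  have h := Rep.rep_main m hm N e E hE
  have e1 : {n : ℕ | n ≤ 2 * N ∧ zeta (List.replicate n m) ∉ E} =
      ↑((Finset.range (2 * N + 1)).filter fun n => val (List.replicate n m) ∉ E) := by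
    ext n
    have h1 : zeta (List.replicate n m) = val (List.replicate n m) := (Hit.val_eq_tsum_anti _ (Rep.adm_rep m n hm)).symm
    rw [Set.mem_ofPred_eq, Finset.mem_coe, Finset.mem_filter, Finset.mem_range, h1, Nat.lt_succ_iff]
  rw [e1, Set.ncard_coe_finset] at hs
  rw [hs]
  exact h

end Pool.Agent.Results.MP_c2d7b4_nt.PowersOfALetter
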